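import Mathlib
import Pool.Agent.H759R2.Kad.Props4
import Pool.Agent.H759R2.Kad.Props5

/-!
Statements (as propositions) of the pieces of: every bounded derivation of a C*-algebra into
`B(H)` is inner. Everything lives in one universe `u`.
-/

open scoped ComplexOrder InnerProductSpace ComplexConjugate Topology
open Finset Filter

noncomputable section

namespace H744R2.KZ

open H759R2.Kad

universe u

/-! ### Definitions -/

section defs

variable {H : Type u} [NormedAddCommGroup H] [InnerProductSpace ℂ H] [CompleteSpace H]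

/-- `D` is a derivation relative to `π`, bounded by `K`. -/
structure IsBDer {A : Type u} [CStarAlgebra A] (π : A →⋆ₐ[ℂ] (H →L[ℂ] H))
    (D : A →ₗ[ℂ] (H →L[ℂ] H)) (K : ℝ) : Prop where
  leib : ∀ a b, D (a * b) = π a * D b + D a * π b
  nonneg : 0 ≤ K
  bound : ∀ a, ‖D a‖ ≤ K * ‖a‖

/-- A derivation of a von Neumann algebra `M` on `H` into `B(H)`, bounded by `K`. -/
def IsVDer (M : VonNeumannAlgebra H) (D : M.toStarSubalgebra →ₗ[ℂ] (H →L[ℂ] H)) (K : ℝ) : Prop :=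
  IsBDer M.toStarSubalgebra.subtype D K

/-- `c` is in the centre of `M`. -/
def IsCen (M : VonNeumannAlgebra H) (c : H →L[ℂ] H) : Prop := c ∈ M ∧ ∀ a ∈ M, c * a = a * c

/-- `c` is a central projection of `M`. -/
def IsCP (M : VonNeumannAlgebra H) (c : H →L[ℂ] H) : Prop := IsPr c ∧ IsCen M c

/-- `e` is an abelian projection: every smaller projection is `c * e`, `c` central. -/
def AB (M : VonNeumannAlgebra H) (e : H →L[ℂ] H) : Prop :=
  e ∈ M ∧ IsPr e ∧ ∀ q ∈ M, IsPr q → e * q = q → ∃ c, IsCP M c ∧ q = c * e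

/-- There is no nonzero abelian projection below `z`. -/
def NA (M : VonNeumannAlgebra H) (z : H →L[ℂ] H) : Prop :=
  ∀ p ∈ M, z * p = p → AB M p → p = 0

/-- Matrix units. -/
structure MU {B : Type u} [Ring B] [StarRing B] {k : ℕ} (f : Fin k → Fin k → B) : Prop where
  mul : ∀ i j l m, f i j * f l m = if j = l then f i m else 0
  adj : ∀ i j, star (f i j) = f j i

/-- `z` is a sum of `k` equivalent abelian projections. -/
def TypeI (M : VonNeumannAlgebra H) (z : H →L[ℂ] H) : Prop :=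
  ∃ (k : ℕ) (f : Fin k → Fin k → (H →L[ℂ] H)), (∀ i j, f i j ∈ M) ∧ MU f ∧ ∑ i, f i i = z ∧
    ∀ i, AB M (f i i)

/-- `z` is the sum of two projections equivalent to `z`. -/
def Inf (M : VonNeumannAlgebra H) (z : H →L[ℂ] H) : Prop :=
  ∃ s ∈ M, ∃ t ∈ M, star s * s = z ∧ star t * t = z ∧ s * star s + t * star t = z

/-- The diagonal matrix with all entries `z`. -/
def dg (n : ℕ) (z : H →L[ℂ] H) : HH (Fin n) H →L[ℂ] HH (Fin n) H :=
  opMat fun i j => if i = j then z else 0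

omit [CompleteSpace H] in
theorem dg_apply (n : ℕ) (z : H →L[ℂ] H) (v : HH (Fin n) H) (i : Fin n) :
    dg n z v i = z (v i) := by
  rw [dg, opMat_apply, Finset.sum_eq_single i]
  · simp
  · intro j _ hj
    simp [Ne.symm hj]
  · simp

/-- A `factor like` quotient `p : M → B`: central elements become scalars, `z` becomes `1`. -/
structure FData (M : VonNeumannAlgebra H) (z : H →L[ℂ] H) {B : Type u} [CStarAlgebra B]
    (p : M.toStarSubalgebra →⋆ₐ[ℂ] B) : Prop where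
  cp : IsCP M z
  surj : Function.Surjective p
  scal : ∀ c : M.toStarSubalgebra, IsCen M (c : H →L[ℂ] H) → ∃ s : ℂ, p c = algebraMap ℂ B s
  one : p ⟨z, cp.2.1⟩ = 1

end defs

/-- Families `y` with `∑ y* y = 1` and `∑ y y*` small. -/
def HasY (B : Type u) [CStarAlgebra B] : Prop :=
  ∀ ε : ℝ, 0 < ε → ∃ (m : ℕ) (y : Fin m → B), ∑ j, star (y j) * y j = 1 ∧
    ‖∑ j, y j * star (y j)‖ ≤ ε

/-- Row and column bounds. -/
def RowB {A : Type u} [CStarAlgebra A] {H : Type u} [NormedAddCommGroup H]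
    [InnerProductSpace ℂ H] [CompleteSpace H] (D : A →ₗ[ℂ] (H →L[ℂ] H)) (C : ℝ) : Prop :=
  ∀ (n : ℕ) (a : Fin n → A) (ξ : Fin n → H),
    ‖∑ k, D (a k) (ξ k)‖ ^ 2 ≤ C * ‖∑ k, a k * star (a k)‖ * ∑ k, ‖ξ k‖ ^ 2

/-- The constant. -/
def C0 : ℝ := 432 * 2 ^ 23

/-! ### W, E: extension to the von Neumann algebra -/

/-- Weak limits of bounded families of operators. -/
def W_lim : Prop :=
  ∀ (H : Type u) [NormedAddCommGroup H] [InnerProductSpace ℂ H] [CompleteSpace H]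
    (ι : Type u) (𝒰 : Ultrafilter ι) (T : ι → (H →L[ℂ] H)) (C : ℝ), (∀ i, ‖T i‖ ≤ C) →
    ∃ S : H →L[ℂ] H, ‖S‖ ≤ C ∧ ∀ x y : H, Tendsto (fun i => ⟪x, T i y⟫_ℂ) 𝒰 (𝓝 ⟪x, S y⟫_ℂ)

/-- Double commutant theorem: density. -/
def E_dens : Prop :=
  ∀ (A : Type u) [CStarAlgebra A]
    (H : Type u) [NormedAddCommGroup H] [InnerProductSpace ℂ H] [CompleteSpace H]
    (π : A →⋆ₐ[ℂ] (H →L[ℂ] H)) (m : H →L[ℂ] H),
    m ∈ Set.centralizer (Set.centralizer (Set.range π)) → ∀ (n : ℕ) (ξ : Fin n → H) (ε : ℝ),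
      0 < ε → ∃ a : A, ∀ i, ‖(π a - m) (ξ i)‖ ≤ ε

/-- Density of the self-adjoint elements. -/
def E_densa : Prop :=
  ∀ (A : Type u) [CStarAlgebra A]
    (H : Type u) [NormedAddCommGroup H] [InnerProductSpace ℂ H] [CompleteSpace H]
    (π : A →⋆ₐ[ℂ] (H →L[ℂ] H)) (m : H →L[ℂ] H), IsSelfAdjoint m →
    m ∈ Set.centralizer (Set.centralizer (Set.range π)) → ∀ (n : ℕ) (ξ : Fin n → H) (ε : ℝ),
      0 < ε → ∃ a : A, IsSelfAdjoint a ∧ ∀ i, ‖(π a - m) (ξ i)‖ ≤ ε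

/-- Kaplansky's density theorem for self-adjoint operators. -/
def E_kap : Prop :=
  ∀ (A : Type u) [CStarAlgebra A]
    (H : Type u) [NormedAddCommGroup H] [InnerProductSpace ℂ H] [CompleteSpace H]
    (π : A →⋆ₐ[ℂ] (H →L[ℂ] H)) (m : H →L[ℂ] H), IsSelfAdjoint m →
    m ∈ Set.centralizer (Set.centralizer (Set.range π)) → ∀ (n : ℕ) (ξ : Fin n → H) (ε : ℝ),
      0 < ε → ∃ a : A, IsSelfAdjoint a ∧ ‖a‖ ≤ ‖m‖ ∧ ∀ i, ‖(π a - m) (ξ i)‖ ≤ ε

/-- Strong-weak continuity estimate for derivations. -/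
def E_est : Prop :=
  ∀ (A : Type u) [CStarAlgebra A]
    (H : Type u) [NormedAddCommGroup H] [InnerProductSpace ℂ H] [CompleteSpace H]
    (π : A →⋆ₐ[ℂ] (H →L[ℂ] H)) (D : A →ₗ[ℂ] (H →L[ℂ] H)) (K : ℝ), IsBDer π D K →
    ∀ a : A, IsSelfAdjoint a → ∀ ξ η : H,
      ‖⟪η, D a ξ⟫_ℂ‖ ≤ 2 * K * √‖a‖ * (‖ξ‖ * √(‖π a η‖ * ‖η‖) + ‖η‖ * √(‖π a ξ‖ * ‖ξ‖))

/-- Extension of a derivation to the von Neumann algebra generated by the image. -/
def E_ext : Prop :=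
  ∀ (A : Type u) [CStarAlgebra A]
    (H : Type u) [NormedAddCommGroup H] [InnerProductSpace ℂ H] [CompleteSpace H]
    (π : A →⋆ₐ[ℂ] (H →L[ℂ] H)) (D : A →ₗ[ℂ] (H →L[ℂ] H)) (K : ℝ), IsBDer π D K →
    ∃ (M : VonNeumannAlgebra H) (h : ∀ a, π a ∈ M)
      (D' : M.toStarSubalgebra →ₗ[ℂ] (H →L[ℂ] H)), IsVDer M D' (2 * K) ∧
      ∀ a, D' ⟨π a, h a⟩ = D a

/-! ### Z: the centre -/

/-- A bounded derivation is inner on the centre. -/
def Z_pert : Prop :=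
  ∀ (H : Type u) [NormedAddCommGroup H] [InnerProductSpace ℂ H] [CompleteSpace H]
    (M : VonNeumannAlgebra H) (D : M.toStarSubalgebra →ₗ[ℂ] (H →L[ℂ] H)) (K : ℝ), IsVDer M D K →
    ∃ T : H →L[ℂ] H, ‖T‖ ≤ K ∧ ∀ c : M.toStarSubalgebra, IsCen M (c : H →L[ℂ] H) →
      D c = T * (c : H →L[ℂ] H) - (c : H →L[ℂ] H) * T

/-- Exhaustion by central projections. -/
def C_exh : Prop :=
  ∀ (H : Type u) [NormedAddCommGroup H] [InnerProductSpace ℂ H] [CompleteSpace H]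
    (M : VonNeumannAlgebra H) (n : ℕ) (b : HH (Fin n) H →L[ℂ] HH (Fin n) H) (C : ℝ), 0 ≤ C →
    (∀ c, IsCP M c → b * dg n c = dg n c * b) →
    (∀ w, IsCP M w → w ≠ 0 → ∃ z, IsCP M z ∧ z ≠ 0 ∧ w * z = z ∧ ‖b * dg n z‖ ≤ C) → ‖b‖ ≤ C

/-! ### L: local structure of von Neumann algebras -/

/-- Central carrier of a projection. -/
def L_cc : Prop :=
  ∀ (H : Type u) [NormedAddCommGroup H] [InnerProductSpace ℂ H] [CompleteSpace H]
    (M : VonNeumannAlgebra H), ∀ q ∈ M, IsPr q → ∃ c, IsCP M c ∧ c * q = q ∧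
      ∀ x : H →L[ℂ] H, (∀ a ∈ M, x * a * q = 0) → x * c = 0

/-- A maximal partial isometry between two projections. -/
def L_max : Prop :=
  ∀ (H : Type u) [NormedAddCommGroup H] [InnerProductSpace ℂ H] [CompleteSpace H]
    (M : VonNeumannAlgebra H), ∀ p ∈ M, ∀ q ∈ M, IsPr p → IsPr q →
    ∃ v ∈ M, IsPI v ∧ v * p = v ∧ q * v = v ∧
      ∀ a ∈ M, (q - v * star v) * a * (p - star v * v) = 0

/-- Halving. -/
def L_half : Prop :=
  ∀ (H : Type u) [NormedAddCommGroup H] [InnerProductSpace ℂ H] [CompleteSpace H]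
    (M : VonNeumannAlgebra H) (z : H →L[ℂ] H), IsCP M z → NA M z →
    ∃ v ∈ M, v * v = 0 ∧ star v * v + v * star v = z

/-- Sums of partial isometries. -/
def L_sum : Prop :=
  ∀ (H : Type u) [NormedAddCommGroup H] [InnerProductSpace ℂ H] [CompleteSpace H]
    (M : VonNeumannAlgebra H) (I : Type u) (a b : I → (H →L[ℂ] H)), (∀ i, a i ∈ M) →
    (∀ i, b i ∈ M) → (∀ i, IsPI (a i)) → (∀ i, star (a i) * a i = star (b i) * b i) →
    (∀ i j, i ≠ j → star (a i) * a j = 0) → (∀ i j, i ≠ j → star (b i) * b j = 0) →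
    ∃ V ∈ M, (∀ i, V * b i = a i) ∧ (∀ i, star V * a i = b i) ∧
      (∀ x : H →L[ℂ] H, (∀ i, star (b i) * x = 0) → V * x = 0) ∧
      ∀ x : H →L[ℂ] H, (∀ i, x * a i = 0) → x * V = 0

/-- Below an abelian projection `e` there is a central piece in which the unit is a sum of
projections equivalent to (a piece of) `e`. -/
def L_fam : Prop :=
  ∀ (H : Type u) [NormedAddCommGroup H] [InnerProductSpace ℂ H] [CompleteSpace H]
    (M : VonNeumannAlgebra H) (w e : H →L[ℂ] H), IsCP M w → AB M e → e ≠ 0 → w * e = e →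
    ∃ z, IsCP M z ∧ z ≠ 0 ∧ w * z = z ∧ ∃ (I : Type u) (f : I → (H →L[ℂ] H)), (∀ i, f i ∈ M) ∧
      (∀ i, star (f i) * f i = z * e) ∧ (∀ i j, i ≠ j → star (f i) * f j = 0) ∧
      (∀ i, z * f i = f i) ∧ ∀ x : H →L[ℂ] H, (∀ i, x * f i = 0) → x * z = 0

/-- A finite family gives type I. -/
def L_fin : Prop :=
  ∀ (H : Type u) [NormedAddCommGroup H] [InnerProductSpace ℂ H] [CompleteSpace H]
    (M : VonNeumannAlgebra H) (z e : H →L[ℂ] H), IsCP M z → AB M e →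
    ∀ (I : Type u) [Finite I] (f : I → (H →L[ℂ] H)), (∀ i, f i ∈ M) →
      (∀ i, star (f i) * f i = z * e) → (∀ i j, i ≠ j → star (f i) * f j = 0) →
      (∀ i, z * f i = f i) → (∀ x : H →L[ℂ] H, (∀ i, x * f i = 0) → x * z = 0) → TypeI M z

/-- An infinite family gives an infinite piece. -/
def L_inf : Prop :=
  ∀ (H : Type u) [NormedAddCommGroup H] [InnerProductSpace ℂ H] [CompleteSpace H]
    (M : VonNeumannAlgebra H) (z e : H →L[ℂ] H), IsCP M z → e ∈ M → IsPr e →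
    ∀ (I : Type u) [Infinite I] (f : I → (H →L[ℂ] H)), (∀ i, f i ∈ M) →
      (∀ i, star (f i) * f i = z * e) → (∀ i j, i ≠ j → star (f i) * f j = 0) →
      (∀ i, z * f i = f i) → (∀ x : H →L[ℂ] H, (∀ i, x * f i = 0) → x * z = 0) → Inf M z

/-- Local structure. -/
def L_struct : Prop :=
  ∀ (H : Type u) [NormedAddCommGroup H] [InnerProductSpace ℂ H] [CompleteSpace H]
    (M : VonNeumannAlgebra H) (w : H →L[ℂ] H), IsCP M w → w ≠ 0 →
    ∃ z, IsCP M z ∧ z ≠ 0 ∧ w * z = z ∧ (TypeI M z ∨ NA M z ∨ Inf M z)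

/-! ### X: the Dixmier approximation theorem -/

/-- Comparability of projections. -/
def X_comp : Prop :=
  ∀ (H : Type u) [NormedAddCommGroup H] [InnerProductSpace ℂ H] [CompleteSpace H]
    (M : VonNeumannAlgebra H), ∀ p ∈ M, ∀ q ∈ M, IsPr p → IsPr q →
    ∃ z, IsCP M z ∧ ∃ v ∈ M, ∃ w ∈ M, star v * v = z * p ∧ z * q * v = v ∧
      star w * w = (1 - z) * q ∧ (1 - z) * p * w = w

/-- One step of Dixmier averaging. -/
def X_step : Prop :=
  ∀ (H : Type u) [NormedAddCommGroup H] [InnerProductSpace ℂ H] [CompleteSpace H]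
    (M : VonNeumannAlgebra H) (a : H →L[ℂ] H), a ∈ M → IsSelfAdjoint a →
    ∃ g ∈ M, star g * g = 1 ∧ g * star g = 1 ∧ ∃ c, IsCen M c ∧ IsSelfAdjoint c ∧
      ‖(2 : ℂ)⁻¹ • (a + g * a * star g) - c‖ ≤ 3 / 4 * ‖a‖

/-- The Dixmier approximation theorem. -/
def X_dat : Prop :=
  ∀ (H : Type u) [NormedAddCommGroup H] [InnerProductSpace ℂ H] [CompleteSpace H]
    (M : VonNeumannAlgebra H) (a : M.toStarSubalgebra), IsSelfAdjoint a → ∀ ε : ℝ, 0 < ε →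
    ∃ (N : ℕ) (g : Fin (N + 1) → unitary M.toStarSubalgebra) (c : M.toStarSubalgebra),
      IsCen M (c : H →L[ℂ] H) ∧
      ‖((N + 1 : ℂ))⁻¹ • ∑ k, (g k : M.toStarSubalgebra) * a *
        star (g k : M.toStarSubalgebra) - c‖ ≤ ε

/-! ### F: fibres -/

/-- A state that attains the norm and is multiplicative on central elements. -/
def F_state : Prop :=
  ∀ (B : Type u) [CStarAlgebra B] [PartialOrder B] [StarOrderedRing B] [Nontrivial B] (b : B),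
    ∃ φ : B →ₗ[ℂ] ℂ, φ 1 = 1 ∧ (∀ a, 0 ≤ φ (star a * a)) ∧ φ (star b * b) = (‖b‖ ^ 2 : ℝ) ∧
      ∀ z, (∀ a, z * a = a * z) → ∀ a, φ (z * a) = φ z * φ a

/-- The GNS representation. -/
def F_gns : Prop :=
  ∀ (B : Type u) [CStarAlgebra B] [PartialOrder B] [StarOrderedRing B] (φ : B →ₗ[ℂ] ℂ),
    φ 1 = 1 → (∀ a, 0 ≤ φ (star a * a)) →
    ∃ (K : Type u) (_ : NormedAddCommGroup K) (_ : InnerProductSpace ℂ K) (_ : CompleteSpace K)
      (ρ : B →⋆ₐ[ℂ] (K →L[ℂ] K)) (Ω : K), ‖Ω‖ = 1 ∧ (∀ a, ⟪Ω, ρ a Ω⟫_ℂ = φ a) ∧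
      ∀ x : K →L[ℂ] K, (∀ a, x (ρ a Ω) = 0) → x = 0

/-- A representation that attains the norm and maps the centre to scalars. -/
def F_rep : Prop :=
  ∀ (B : Type u) [CStarAlgebra B] [PartialOrder B] [StarOrderedRing B] [Nontrivial B] (b : B),
    ∃ (K : Type u) (_ : NormedAddCommGroup K) (_ : InnerProductSpace ℂ K) (_ : CompleteSpace K)
      (ρ : B →⋆ₐ[ℂ] (K →L[ℂ] K)), ‖ρ b‖ = ‖b‖ ∧
      ∀ z, (∀ a, z * a = a * z) → ∃ s : ℂ, ρ z = s • 1

/-- Fibre of a derivation that commutes with the centre. -/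
def F_fib : Prop :=
  ∀ (H : Type u) [NormedAddCommGroup H] [InnerProductSpace ℂ H] [CompleteSpace H]
    (M : VonNeumannAlgebra H) (D : M.toStarSubalgebra →ₗ[ℂ] (H →L[ℂ] H)) (K : ℝ), IsVDer M D K →
    (∀ c, IsCen M c → ∀ a, c * D a = D a * c) → ∀ (z : H →L[ℂ] H) (hz : IsCP M z) (n : ℕ)
      (X : CStarMatrix (Fin n) (Fin n) M.toStarSubalgebra), amp D (Fin n) X * dg n z ≠ 0 →
    ∃ (L : Type u) (_ : NormedAddCommGroup L) (_ : InnerProductSpace ℂ L) (_ : CompleteSpace L)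
      (π : M.toStarSubalgebra →⋆ₐ[ℂ] (L →L[ℂ] L)) (D' : M.toStarSubalgebra →ₗ[ℂ] (L →L[ℂ] L)),
      IsBDer π D' K ∧ (∀ c : M.toStarSubalgebra, IsCen M (c : H →L[ℂ] H) →
        ∃ s : ℂ, π c = s • 1) ∧ π ⟨z, hz.2.1⟩ = 1 ∧
      ‖amp D (Fin n) X * dg n z‖ ≤ ‖amp D' (Fin n) X‖

/-- A derivation descends to the image algebra. -/
def F_desc : Prop :=
  ∀ (A : Type u) [CStarAlgebra A]
    (L : Type u) [NormedAddCommGroup L] [InnerProductSpace ℂ L] [CompleteSpace L]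
    (π : A →⋆ₐ[ℂ] (L →L[ℂ] L)) (D : A →ₗ[ℂ] (L →L[ℂ] L)) (K : ℝ), IsBDer π D K →
    ∃ (B : Type u) (_ : CStarAlgebra B) (p : A →⋆ₐ[ℂ] B) (j : B →⋆ₐ[ℂ] (L →L[ℂ] L))
      (D' : B →ₗ[ℂ] (L →L[ℂ] L)), Function.Surjective p ∧ Function.Injective j ∧
      (∀ a, j (p a) = π a) ∧ (∀ a, D' (p a) = D a) ∧ IsBDer j D' K

/-! ### N: fibres of algebras without abelian projections -/

/-- Relative commutant of a halving. -/
def N_comm : Prop :=
  ∀ (H : Type u) [NormedAddCommGroup H] [InnerProductSpace ℂ H] [CompleteSpace H]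
    (M : VonNeumannAlgebra H) (z v : H →L[ℂ] H), IsCP M z → NA M z → v ∈ M → v * v = 0 →
    star v * v + v * star v = z →
    ∃ N : VonNeumannAlgebra H, (∀ a, a ∈ N ↔ a ∈ M ∧ a * v = v * a ∧ a * star v = star v * a) ∧
      IsCP N z ∧ NA N z ∧ ∀ c, IsCen N c → IsCen M (c * z)

/-- The fibre is a `2 × 2` matrix algebra. -/
def N_two : Prop :=
  ∀ (H : Type u) [NormedAddCommGroup H] [InnerProductSpace ℂ H] [CompleteSpace H]
    (M : VonNeumannAlgebra H) (z : H →L[ℂ] H) (B : Type u) [CStarAlgebra B]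
    (p : M.toStarSubalgebra →⋆ₐ[ℂ] B), FData M z p → NA M z →
    ∃ (N : VonNeumannAlgebra H) (E : Type u) (_ : CStarAlgebra E)
      (q : N.toStarSubalgebra →⋆ₐ[ℂ] E), FData N z q ∧ NA N z ∧
      Nonempty (B ≃⋆ₐ[ℂ] CStarMatrix (Fin 2) (Fin 2) E)

/-- The fibre is a `2 ^ k × 2 ^ k` matrix algebra. -/
def N_pow : Prop :=
  ∀ (H : Type u) [NormedAddCommGroup H] [InnerProductSpace ℂ H] [CompleteSpace H]
    (M : VonNeumannAlgebra H) (z : H →L[ℂ] H) (B : Type u) [CStarAlgebra B]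
    (p : M.toStarSubalgebra →⋆ₐ[ℂ] B), FData M z p → NA M z → ∀ k : ℕ,
    ∃ (N : VonNeumannAlgebra H) (E : Type u) (_ : CStarAlgebra E)
      (q : N.toStarSubalgebra →⋆ₐ[ℂ] E), FData N z q ∧ NA N z ∧
      Nonempty (B ≃⋆ₐ[ℂ] CStarMatrix (Fin (2 ^ k)) (Fin (2 ^ k)) E)

/-- Dixmier property of the fibres with a tracial state. -/
def N_dix : Prop :=
  ∀ (H : Type u) [NormedAddCommGroup H] [InnerProductSpace ℂ H] [CompleteSpace H]
    (M : VonNeumannAlgebra H) (z : H →L[ℂ] H) (B : Type u) [CStarAlgebra B]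
    (p : M.toStarSubalgebra →⋆ₐ[ℂ] B), FData M z p → ∀ τ : B →ₗ[ℂ] ℂ, IsTracialState τ →
    HasDixmier τ

/-- Orthogonal unitaries in a C*-algebra that is a matrix algebra of size `2 ^ k` for all `k`. -/
def N_orth : Prop :=
  ∀ (B : Type u) [CStarAlgebra B] (τ : B →ₗ[ℂ] ℂ), IsTracialState τ →
    (∀ k : ℕ, ∃ (E : Type u) (_ : CStarAlgebra E),
      Nonempty (B ≃⋆ₐ[ℂ] CStarMatrix (Fin (2 ^ k)) (Fin (2 ^ k)) E)) → HasOrth τ

/-- The trace on the corner. -/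
def N_tr : Prop :=
  ∀ (B E : Type u) [CStarAlgebra B] [CStarAlgebra E] (k : ℕ), 0 < k → ∀ (τ : B →ₗ[ℂ] ℂ),
    IsTracialState τ → Nonempty (B ≃⋆ₐ[ℂ] CStarMatrix (Fin k) (Fin k) E) →
    ∃ τ' : E →ₗ[ℂ] ℂ, IsTracialState τ'

/-- The fibres with a tracial state belong to the class of the main theorem. -/
def N_class : Prop :=
  ∀ (H : Type u) [NormedAddCommGroup H] [InnerProductSpace ℂ H] [CompleteSpace H]
    (M : VonNeumannAlgebra H) (z : H →L[ℂ] H) (B : Type u) [CStarAlgebra B]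
    (p : M.toStarSubalgebra →⋆ₐ[ℂ] B), FData M z p → NA M z →
    (∃ τ : B →ₗ[ℂ] ℂ, IsTracialState τ) → ∀ L₀ : ℕ, ∃ L, L₀ ≤ L ∧ IsMatDixmier B L

/-! ### T: type I fibres -/

/-- Type I fibres are finite dimensional. -/
def T_span : Prop :=
  ∀ (H : Type u) [NormedAddCommGroup H] [InnerProductSpace ℂ H] [CompleteSpace H]
    (M : VonNeumannAlgebra H) (z : H →L[ℂ] H) (B : Type u) [CStarAlgebra B]
    (p : M.toStarSubalgebra →⋆ₐ[ℂ] B), FData M z p → TypeI M z →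
    ∃ (k : ℕ) (f : Fin k → Fin k → B), MU f ∧ ∀ b, ∃ c : Fin k → Fin k → ℂ,
      b = ∑ i, ∑ j, c i j • f i j

/-- A derivation is inner on matrix units. -/
def T_grp : Prop :=
  ∀ (B : Type u) [CStarAlgebra B]
    (L : Type u) [NormedAddCommGroup L] [InnerProductSpace ℂ L] [CompleteSpace L]
    (π : B →⋆ₐ[ℂ] (L →L[ℂ] L)) (D : B →ₗ[ℂ] (L →L[ℂ] L)) (K : ℝ), IsBDer π D K →
    ∀ (k : ℕ) (f : Fin k → Fin k → B), MU f →
    ∃ T : L →L[ℂ] L, ‖T‖ ≤ K ∧ ∀ i j, D (f i j) = T * π (f i j) - π (f i j) * T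

/-! ### Y: algebras without tracial states -/

/-- Hahn-Banach. -/
def Y_hb : Prop :=
  ∀ (B : Type u) [CStarAlgebra B] [PartialOrder B] [StarOrderedRing B],
    (¬ ∃ τ : B →ₗ[ℂ] ℂ, IsTracialState τ) → ∃ (m : ℕ) (x : Fin m → B),
      1 + ∑ j, x j * star (x j) ≤ ∑ j, star (x j) * x j

/-- From one family to families with `∑ y y*` small. -/
def Y_fam : Prop :=
  ∀ (B : Type u) [CStarAlgebra B] [PartialOrder B] [StarOrderedRing B],
    (∃ (m : ℕ) (x : Fin m → B), 1 + ∑ j, x j * star (x j) ≤ ∑ j, star (x j) * x j) → HasY B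

/-- Infinite fibres have no tracial state. -/
def Y_inf : Prop :=
  ∀ (H : Type u) [NormedAddCommGroup H] [InnerProductSpace ℂ H] [CompleteSpace H]
    (M : VonNeumannAlgebra H) (z : H →L[ℂ] H) (B : Type u) [CStarAlgebra B]
    (p : M.toStarSubalgebra →⋆ₐ[ℂ] B), FData M z p → Inf M z →
    ¬ ∃ τ : B →ₗ[ℂ] ℂ, IsTracialState τ

/-- Row bound. -/
def Y_row : Prop :=
  ∀ (B : Type u) [CStarAlgebra B] [PartialOrder B] [StarOrderedRing B]
    (L : Type u) [NormedAddCommGroup L] [InnerProductSpace ℂ L] [CompleteSpace L]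
    (π : B →⋆ₐ[ℂ] (L →L[ℂ] L)) (D : B →ₗ[ℂ] (L →L[ℂ] L)) (K : ℝ), IsBDer π D K → HasY B →
    RowB D (24 * K ^ 2)

/-- The bound for the amplifications. -/
def Y_main : Prop :=
  ∀ (B : Type u) [CStarAlgebra B] [PartialOrder B] [StarOrderedRing B]
    (L : Type u) [NormedAddCommGroup L] [InnerProductSpace ℂ L] [CompleteSpace L]
    (π : B →⋆ₐ[ℂ] (L →L[ℂ] L)) (D : B →ₗ[ℂ] (L →L[ℂ] L)) (K : ℝ), IsBDer π D K → HasY B →
    ∀ (n : ℕ) (X : CStarMatrix (Fin n) (Fin n) B), ‖amp D (Fin n) X‖ ≤ 40 * K * ‖X‖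

/-! ### A: assembly -/

/-- Inner derivations. -/
def A_ad : Prop :=
  ∀ (B : Type u) [CStarAlgebra B] [PartialOrder B] [StarOrderedRing B]
    (L : Type u) [NormedAddCommGroup L] [InnerProductSpace ℂ L] [CompleteSpace L]
    (π : B →⋆ₐ[ℂ] (L →L[ℂ] L)) (D : B →ₗ[ℂ] (L →L[ℂ] L)) (T : L →L[ℂ] L),
    (∀ b, D b = T * π b - π b * T) →
    ∀ (n : ℕ) (X : CStarMatrix (Fin n) (Fin n) B), ‖amp D (Fin n) X‖ ≤ 2 * ‖T‖ * ‖X‖

/-- Amplifications of homomorphisms of C*-algebras are contractive. -/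
def A_map : Prop :=
  ∀ (A B : Type u) [CStarAlgebra A] [PartialOrder A] [StarOrderedRing A]
    [CStarAlgebra B] [PartialOrder B] [StarOrderedRing B] (p : A →⋆ₐ[ℂ] B) (n : ℕ)
    (X : CStarMatrix (Fin n) (Fin n) A),
    ‖(CStarMatrix.ofMatrix fun i j => p (X i j) : CStarMatrix (Fin n) (Fin n) B)‖ ≤ ‖X‖

/-- Local bound, for derivations vanishing on the centre. -/
def A_loc : Prop :=
  ∀ (H : Type u) [NormedAddCommGroup H] [InnerProductSpace ℂ H] [CompleteSpace H]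
    (M : VonNeumannAlgebra H) [PartialOrder M.toStarSubalgebra]
    [StarOrderedRing M.toStarSubalgebra] (D : M.toStarSubalgebra →ₗ[ℂ] (H →L[ℂ] H)) (K : ℝ), IsVDer M D K →
    (∀ c : M.toStarSubalgebra, IsCen M (c : H →L[ℂ] H) → D c = 0) →
    ∀ w, IsCP M w → w ≠ 0 → ∃ z, IsCP M z ∧ z ≠ 0 ∧ w * z = z ∧
      ∀ (n : ℕ) (X : CStarMatrix (Fin n) (Fin n) M.toStarSubalgebra),
        ‖amp D (Fin n) X * dg n z‖ ≤ C0 * K * ‖X‖

/-- Bound for derivations of von Neumann algebras. -/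
def A_vn : Prop :=
  ∀ (H : Type u) [NormedAddCommGroup H] [InnerProductSpace ℂ H] [CompleteSpace H]
    (M : VonNeumannAlgebra H) [PartialOrder M.toStarSubalgebra]
    [StarOrderedRing M.toStarSubalgebra] (D : M.toStarSubalgebra →ₗ[ℂ] (H →L[ℂ] H)) (K : ℝ), IsVDer M D K →
    ∀ (n : ℕ) (X : CStarMatrix (Fin n) (Fin n) M.toStarSubalgebra),
      ‖amp D (Fin n) X‖ ≤ (3 * C0 + 2) * K * ‖X‖

/-- Bound for derivations of unital C*-algebras. -/
def A_alg : Prop :=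
  ∀ (A : Type u) [CStarAlgebra A] [PartialOrder A] [StarOrderedRing A]
    (H : Type u) [NormedAddCommGroup H] [InnerProductSpace ℂ H] [CompleteSpace H]
    (π : A →⋆ₐ[ℂ] (H →L[ℂ] H)) (D : A →ₗ[ℂ] (H →L[ℂ] H)) (K : ℝ), IsBDer π D K →
    ∀ (n : ℕ) (X : CStarMatrix (Fin n) (Fin n) A), ‖amp D (Fin n) X‖ ≤ (6 * C0 + 4) * K * ‖X‖

/-- A derivation with bounded amplifications is inner. -/
def A_cb : Prop :=
  ∀ (A : Type u) [CStarAlgebra A] [PartialOrder A] [StarOrderedRing A]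
    (H : Type u) [NormedAddCommGroup H] [InnerProductSpace ℂ H] [CompleteSpace H]
    (π : A →⋆ₐ[ℂ] (H →L[ℂ] H)) (D : A →ₗ[ℂ] (H →L[ℂ] H)),
    (∀ a b, D (a * b) = π a * D b + D a * π b) → ∀ C : ℝ, 0 ≤ C →
    (∀ (n : ℕ) (X : CStarMatrix (Fin n) (Fin n) A), ‖amp D (Fin n) X‖ ≤ C * ‖X‖) →
    ∃ T : H →L[ℂ] H, ‖T‖ ≤ 1 + C ∧ ∀ a, D a = T * π a - π a * T

/-- All bounded derivations of unital C*-algebras are inner. -/
def A_inner : Prop :=
  ∀ (A : Type u) [CStarAlgebra A]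
    (H : Type u) [NormedAddCommGroup H] [InnerProductSpace ℂ H] [CompleteSpace H]
    (π : A →⋆ₐ[ℂ] (H →L[ℂ] H)) (D : A →ₗ[ℂ] (H →L[ℂ] H)) (K : ℝ), IsBDer π D K →
    ∃ T : H →L[ℂ] H, ∀ a, D a = T * π a - π a * T

/-- The same for nonunital algebras and degenerate homomorphisms. -/
def A_nonunital : Prop :=
  ∀ (A : Type u) [NonUnitalCStarAlgebra A]
    (H : Type u) [NormedAddCommGroup H] [InnerProductSpace ℂ H] [CompleteSpace H]
    (π : A →⋆ₙₐ[ℂ] (H →L[ℂ] H)) (δ : A →L[ℂ] (H →L[ℂ] H)),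
    (∀ a b : A, δ (a * b) = π a * δ b + δ a * π b) →
    ∃ T : H →L[ℂ] H, ∀ a : A, δ a = π a * T - T * π a

end H744R2.KZ
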